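import Pool.Agent.L0h82.GT.Stm

/-! GT, module K3 (kernel computation). -/

set_option autoImplicit false

namespace Pool.Agent.L0h39.GT.K3

open Pool.Agent.L0h82.GT

theorem t_K3 : K3 := by
  unfold K3
  decide +kernel

end Pool.Agent.L0h39.GT.K3
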